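import Mathlib
import Pool.Agent.Arb2.Bij
import Pool.Agent.Arb2.Conj
import Pool.Agent.Arb3.Ext3
import Pool.Agent.AAP.Tfr

set_option autoImplicit false

/-!
# The polynomials `x ^ (p ^ k) + c`: all finite sets of nonperiodic points
-/

namespace Pool.Agent.TFS

open Polynomial NumberField IsDedekindDomain WithZero
open scoped WithZero
open Pool.Agent.TameArb Pool.Agent.Arb2 Pool.Agent.Arb3

namespace BijA

theorem arith {P B : ℤᵐ⁰} {p k s : ℕ} (hp : 2 ≤ p) (hs : s < k) (hB : 1 ≤ B)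
    (h : P ^ p * (B ^ p ^ k) ^ (p - 1) < 1) : P ^ (k - s) * B ^ (p ^ k - p ^ s) < 1 := by
  by_contra hcon
  push Not at hcon
  set j := k - s with hj
  have hj1 : 1 ≤ j := by omega
  have h1 : (1 : ℤᵐ⁰) ≤ (P ^ j * B ^ (p ^ k - p ^ s)) ^ p := one_le_pow₀ hcon
  have h2 : (P ^ p * (B ^ p ^ k) ^ (p - 1)) ^ j < 1 := pow_lt_one₀ zero_le h (by omega)
  refine absurd (h1.trans ?_) (not_le.2 h2)
  have e1 : (P ^ j * B ^ (p ^ k - p ^ s)) ^ p = P ^ (p * j) * B ^ ((p ^ k - p ^ s) * p) := by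
    rw [mul_pow, ← pow_mul, ← pow_mul, mul_comm j p]
  have e2 : (P ^ p * (B ^ p ^ k) ^ (p - 1)) ^ j = P ^ (p * j) * B ^ (p ^ k * (p - 1) * j) := by
    rw [mul_pow, ← pow_mul, ← pow_mul, ← pow_mul, mul_assoc]
  rw [e1, e2]
  refine mul_le_mul_right (pow_le_pow_right₀ hB ?_) _
  obtain ⟨k', hk'⟩ : ∃ k', k = s + k' := ⟨j, by omega⟩
  have hjk : j = k' := by omega
  rw [hjk] at hj1 ⊢
  rw [hk', pow_add]
  have e3 : p ^ s * p ^ k' - p ^ s = p ^ s * (p ^ k' - 1) := by
    rw [Nat.mul_sub, mul_one]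
  rw [e3, mul_assoc, mul_assoc, mul_assoc]
  refine Nat.mul_le_mul_left _ ?_
  rcases Nat.lt_or_ge 1 k' with h3 | h3
  · calc (p ^ k' - 1) * p ≤ p ^ k' * p := Nat.mul_le_mul_right _ (Nat.sub_le _ _)
      _ ≤ p ^ k' * ((p - 1) * k') := by
          refine Nat.mul_le_mul_left _ ?_
          calc p ≤ (p - 1) * 2 := by omega
            _ ≤ (p - 1) * k' := Nat.mul_le_mul_left _ h3
  · have h4 : k' = 1 := by omega
    rw [h4, pow_one, mul_one, mul_comm]

theorem dvd_choose {p k i s : ℕ} (hp : p.Prime) (hs : p ^ s ∣ i)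
    (hs' : ¬ p ^ (s + 1) ∣ i) (hi0 : 0 < i) (hsk : s ≤ k) : p ^ (k - s) ∣ (p ^ k).choose i := by
  obtain ⟨m, hm⟩ := hs
  have hpm : ¬ p ∣ m := by
    rintro ⟨m', hm'⟩
    exact hs' ⟨m', by rw [hm, hm', pow_succ]; ring⟩
  have hp0 : 0 < p ^ k := pow_pos hp.pos k
  have h1 : p ^ k * (p ^ k - 1).choose (i - 1) = (p ^ k).choose i * i := by
    have h2 := Nat.add_one_mul_choose_eq (p ^ k - 1) (i - 1)
    rwa [Nat.sub_add_cancel hp0, Nat.sub_add_cancel hi0] at h2
  have h2 : p ^ s * (p ^ (k - s) * (p ^ k - 1).choose (i - 1)) =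
      p ^ s * ((p ^ k).choose i * m) := by
    rw [← mul_assoc, ← pow_add, Nat.add_sub_cancel' hsk, h1, hm]
    ring
  have h3 := Nat.eq_of_mul_eq_mul_left (pow_pos hp.pos s) h2
  have h4 : p ^ (k - s) ∣ (p ^ k).choose i * m := ⟨_, h3.symm⟩
  exact (Nat.Coprime.pow_left _ ((Nat.Prime.coprime_iff_not_dvd hp).2 hpm)).dvd_of_dvd_mul_right h4

/-- the coefficients of the conjugate polynomial -/
theorem coeff_lt {L : Type} [Field L] (V : Valuation L ℤᵐ⁰) {p k : ℕ} (hp : p.Prime)
    (hk : 0 < k) (hV : V (p : L) < 1) {c β : L} (hβ : β ^ p ^ k - β + c = 0)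
    (hc : V ((p : L) ^ p * c ^ (p - 1)) < 1) {i : ℕ} (hi0 : 0 < i) (hi : i < p ^ k) :
    V (β ^ (p ^ k - i) * ((p ^ k).choose i : L)) < 1 := by
  have hint : ∀ n : ℕ, V (n : L) ≤ 1 := natCast_le
  -- the exponent of `p` in `i`
  obtain ⟨s, hs, hs'⟩ : ∃ s, p ^ s ∣ i ∧ ¬ p ^ (s + 1) ∣ i := by
    have h1 : FiniteMultiplicity p i := Nat.finiteMultiplicity_iff.2 ⟨hp.ne_one, hi0⟩
    exact ⟨multiplicity p i, pow_multiplicity_dvd p i,
      h1.not_pow_dvd_of_multiplicity_lt (Nat.lt_succ_self _)⟩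
  have hsi : p ^ s ≤ i := Nat.le_of_dvd hi0 hs
  have hsk : s < k := (Nat.pow_lt_pow_iff_right hp.one_lt).1 (hsi.trans_lt hi)
  have h1 : V ((p ^ k).choose i : L) ≤ V (p : L) ^ (k - s) := by
    obtain ⟨m, hm⟩ := dvd_choose hp hs hs' hi0 hsk.le
    rw [hm, Nat.cast_mul, Nat.cast_pow, map_mul, map_pow]
    exact mul_le_of_le_one_right' (hint m)
  rw [map_mul, map_pow]
  rcases le_or_gt (V β) 1 with hB | hB
  · have h2 : V (p : L) ^ (k - s) < 1 := pow_lt_one₀ zero_le hV (by omega)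
    calc V β ^ (p ^ k - i) * V ((p ^ k).choose i : L) ≤ 1 * V ((p ^ k).choose i : L) :=
          mul_le_mul_left (pow_le_one' hB _) _
      _ < 1 := by rw [one_mul]; exact h1.trans_lt h2
  · have hd : 1 < p ^ k := Nat.one_lt_pow hk.ne' hp.one_lt
    have h2 : V β ^ p ^ k ≤ V c := by
      have h3 : β ^ p ^ k = β - c := by linear_combination hβ
      have h4 : V β ^ p ^ k ≤ max (V β) (V c) := by
        rw [← map_pow, h3]
        exact V.map_sub β c
      rcases le_max_iff.1 h4 with h5 | h5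
      · have h6 : V β < V β ^ p ^ k := by
          conv_lhs => rw [← pow_one (V β)]
          exact pow_lt_pow_right₀ hB hd
        exact absurd h5 (not_le.2 h6)
      · exact h5
    have h3 : V (p : L) ^ p * (V β ^ p ^ k) ^ (p - 1) < 1 := by
      rw [map_mul, map_pow, map_pow] at hc
      exact (mul_le_mul_right (pow_le_pow_left' h2 _) _).trans_lt hc
    have h4 := arith hp.two_le hsk hB.le h3
    calc V β ^ (p ^ k - i) * V ((p ^ k).choose i : L) ≤
          V β ^ (p ^ k - p ^ s) * V (p : L) ^ (k - s) :=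
          mul_le_mul' (pow_le_pow_right₀ hB.le (by omega)) h1
      _ < 1 := by rwa [mul_comm]

variable {K : Type} [Field K]

theorem natDegree_phi {d : ℕ} (c : K) : (X ^ d + C c : K[X]).natDegree = d :=
  natDegree_X_pow_add_C

end BijA

open BijA

/-- leaf (i) -/
theorem dens_bij {K : Type} [Field K] [NumberField K] (p : ℕ) (hp : p.Prime) (k : ℕ) (hk : 1 ≤ k)
    (c : K) (v : HeightOneSpectrum (𝓞 K)) (hv : v.valuation K (p : K) < 1)
    (h1 : v.valuation K ((p : K) ^ p * c ^ (p - 1)) < 1)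
    (h0 : ∀ i j, i < j → (ph (X ^ p ^ k + C c : K[X]))^[i] (0 : K) ≠
      (ph (X ^ p ^ k + C c : K[X]))^[j] 0)
    (Γ : Finset K) (hΓ : ∀ γ ∈ Γ, ∀ n, 0 < n → (ph (X ^ p ^ k + C c : K[X]))^[n] γ ≠ γ) :
    PosDens (GP (X ^ p ^ k + C c) Γ) := by
  have hpv := hv
  have hc := h1
  classical
  set d := p ^ k with hd
  have hk0 : 0 < k := hk
  have hd1 : 1 < d := Nat.one_lt_pow hk0.ne' hp.one_lt
  set φ : K[X] := X ^ d + C c with hφ
  have hφd : φ.natDegree = d := natDegree_phi c
  have hφ2 : 2 ≤ φ.natDegree := by omega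
  -- the field
  obtain ⟨L, _, _, _, _, hsplit⟩ := exists_split K (X ^ d - X + C c)
  obtain ⟨β, hβ⟩ : ∃ β : L, β ^ d - β + algebraMap K L c = 0 := by
    have h1 : ((X ^ d - X + C c : K[X]).map (algebraMap K L)).degree ≠ 0 := by
      rw [degree_map]
      have h2 : (X ^ d - X + C c : K[X]).natDegree = d := by
        rw [natDegree_add_C]
        rw [natDegree_sub_eq_left_of_natDegree_lt]
        · exact natDegree_X_pow d
        · rw [natDegree_X, natDegree_X_pow]
          exact hd1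
      intro h3
      have h4 := natDegree_eq_of_degree_eq_some (n := 0) h3
      omega
    obtain ⟨β, h2⟩ := hsplit.exists_eval_eq_zero h1
    refine ⟨β, ?_⟩
    rw [eval_map_algebraMap] at h2
    simpa using h2
  obtain ⟨w, e, τ, h, hτ, -, -, -⟩ := AAP.exists_tame_frob K L v p hp hpv
  have ho := hτ.ov
  set V := w.valuation L with hV
  have hVp : V (p : L) < 1 := by
    have h1 := ho.lt_one.2 hpv
    rwa [map_natCast] at h1
  have hVc : V ((p : L) ^ p * (algebraMap K L c) ^ (p - 1)) < 1 := by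
    have h1 := ho.lt_one.2 hc
    rwa [map_mul, map_pow, map_pow, map_natCast] at h1
  -- the conjugate polynomial
  set φ' := φ.map (algebraMap K L) with hφ'
  have hφ'e : φ' = X ^ d + C (algebraMap K L c) := by
    rw [hφ', hφ]
    simp
  set ψ := cj φ' 1 β with hψ
  have hψe : ψ = (X + C β) ^ d + C (algebraMap K L c - β) := by
    rw [hψ, cj, hφ'e]
    simp only [inv_one, map_one, one_mul, add_comp, pow_comp, X_comp, C_comp, map_sub]
    ring
  have hψd : ψ.natDegree = d := by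
    rw [hψ, cj_natDegree one_ne_zero, hφ', natDegree_map, hφd]
  have hco : ∀ i, 0 < i → ψ.coeff i = β ^ (d - i) * (d.choose i : L) := by
    intro i hi
    rw [hψe, coeff_add, coeff_X_add_C_pow, coeff_C, if_neg hi.ne', add_zero]
  have hco0 : ψ.coeff 0 = 0 := by
    rw [hψe, coeff_add, coeff_X_add_C_pow, coeff_C, if_pos rfl]
    simp only [Nat.sub_zero, Nat.choose_zero_right, Nat.cast_one, mul_one]
    linear_combination hβ
  have hmid : ∀ i, 0 < i → i < d → V (ψ.coeff i) < 1 := by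
    intro i hi hid
    rw [hco i hi]
    exact coeff_lt V hp hk0 hVp hβ hVc hi hid
  have hgood : Good V ψ := by
    refine ⟨fun i => ?_, ?_⟩
    · rcases Nat.eq_zero_or_pos i with hi | hi
      · rw [hi, hco0, map_zero]
        exact zero_le_one
      rcases lt_trichotomy i d with hid | hid | hid
      · exact (hmid i hi hid).le
      · rw [hco i hi, hid]
        simp
      · rw [coeff_eq_zero_of_natDegree_lt (by omega), map_zero]
        exact zero_le_one
    · rw [leadingCoeff, hψd, hco d (by omega)]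
      simp
  have hbij : BijRed V ψ := ⟨p, k, hp, hVp, by rw [hψd, hd], fun i hi hid => hmid i hi (by
    rwa [hψd] at hid)⟩
  -- growth
  have hgrow : ∀ γ ∈ Γ, ∃ A, Grow φ γ A := by
    intro γ hγ
    obtain ⟨A, hA⟩ := grow_of_bij (γ := (1 : L)⁻¹ * (algebraMap K L γ - β)) (by omega) w hgood hbij
      (fun n hn h => by
        have h1 := cj_iter (A := L) φ' (b := β) one_ne_zero n
          ((1 : L)⁻¹ * (algebraMap K L γ - β))
        rw [← hψ, h] at h1
        simp only [Algebra.algebraMap_self, RingHom.id_apply, inv_one, one_mul,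
          sub_add_cancel] at h1
        rw [hφ', ph_map_eq, ← iter_algebraMap] at h1
        exact hΓ γ hγ n hn ((algebraMap K L).injective h1.symm))
    exact ⟨A, grow_of_ext (grow_of_cj one_ne_zero hA)⟩
  -- a good prime
  obtain ⟨v₀, hv₀⟩ : ∃ v₀ : HeightOneSpectrum (𝓞 K), Good (v₀.valuation K) φ := by
    have := infinite_primes K
    obtain ⟨v₀, h1⟩ := (finite_bad (K := K) hφ2).infinite_compl.nonempty
    refine ⟨v₀, ?_⟩
    by_contra h
    exact h1 h
  -- the critical point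
  have hit : ∀ n, (ph φ)^[n] (0 : AlgebraicClosure K) =
      algebraMap K (AlgebraicClosure K) ((ph φ)^[n] 0) := by
    intro n
    rw [iter_algebraMap, map_zero]
  have hcz : ∀ i, aeval (0 : AlgebraicClosure K) (hasseDeriv i φ) =
      algebraMap K (AlgebraicClosure K) (φ.coeff i) := by
    intro i
    rw [aeval_def, eval₂_at_zero, hasseDeriv_coeff]
    simp
  refine posDens_of_crit3 hφ2 (0 : AlgebraicClosure K) (e := d) (by omega) (fun i hi hid => ?_) ?_
    (Or.inr (Or.inr ⟨X + C (algebraMap K _ c), ?_⟩)) ?_ ?_ Γ ∅ hΓ (fun γ hγ _ => hgrow γ hγ) v₀ hv₀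
    (fun γ hγ => absurd hγ (Finset.notMem_empty γ))
  · rw [hcz, hφ, coeff_add, coeff_X_pow, coeff_C, if_neg (by omega), if_neg (by omega)]
    simp
  · rw [hcz, hφ, coeff_add, coeff_X_pow, coeff_C, if_pos rfl, if_neg (by omega)]
    simp
  · rw [hφ]
    simp
  · intro m n hmn
    by_contra hne
    rcases lt_or_gt_of_ne hne with h1 | h1
    · refine h0 m n h1 ?_
      have h2 : (ph φ)^[m] (0 : AlgebraicClosure K) = (ph φ)^[n] 0 := hmn
      rw [hit, hit] at h2
      exact (algebraMap K (AlgebraicClosure K)).injective h2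
    · refine h0 n m h1 ?_
      have h2 : (ph φ)^[m] (0 : AlgebraicClosure K) = (ph φ)^[n] 0 := hmn
      rw [hit, hit] at h2
      exact ((algebraMap K (AlgebraicClosure K)).injective h2).symm
  · intro a ha ha0
    exfalso
    apply ha0
    rw [hφ, derivative_add, derivative_C, add_zero, derivative_X_pow] at ha
    simp only [map_mul, map_pow, aeval_X, map_natCast] at ha
    rcases mul_eq_zero.1 ha with h1 | h1
    · exfalso
      have h2 : (d : AlgebraicClosure K) = 0 := by simpa using h1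
      have h3 : d = 0 := by exact_mod_cast h2
      omega
    · exact pow_eq_zero_iff (by omega) |>.1 h1

end Pool.Agent.TFS
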