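import Mathlib

set_option autoImplicit false

/-!
# Escape at a nonarchimedean place: translates of a polynomial with good reduction
-/

namespace Pool.Agent.TFS

open Polynomial

section

variable {F : Type*} [Field F] (A : AbsoluteValue F ℝ) (hA : IsNonarchimedean A)

include hA in
theorem na_sub_le (x y : F) : A (x - y) ≤ max (A x) (A y) := by
  have := hA x (-y)
  rwa [← sub_eq_add_neg, AbsoluteValue.map_neg] at this

include hA in
theorem na_add_eq {x y : F} (h : A y < A x) : A (x + y) = A x := by
  apply le_antisymm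
  · exact (hA x y).trans (max_le le_rfl h.le)
  · have h1 : x = (x + y) - y := by ring
    have h2 := na_sub_le A hA (x + y) y
    rw [← h1] at h2
    rcases le_max_iff.mp h2 with h3 | h3
    · exact h3
    · exact absurd h3 (not_le.mpr h)

include hA in
/-- a polynomial with coefficients of absolute value at most one -/
theorem na_eval_le (Q : F[X]) (hQ : ∀ i, A (Q.coeff i) ≤ 1) {n : ℕ} (hn : Q.natDegree ≤ n)
    (z : F) {r : ℝ} (hr : 1 ≤ r) (hz : A z ≤ r) : A (Q.eval z) ≤ r ^ n := by
  rw [eval_eq_sum_range]
  have key : ∀ s : Finset ℕ, (∀ i ∈ s, i ≤ n) →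
      A (∑ i ∈ s, Q.coeff i * z ^ i) ≤ r ^ n := by
    intro s
    classical
    induction s using Finset.induction_on with
    | empty => intro _; simp; positivity
    | insert i s hi ih =>
      intro h
      rw [Finset.sum_insert hi]
      refine (hA _ _).trans (max_le ?_ (ih fun j hj => h j (Finset.mem_insert_of_mem hj)))
      rw [map_mul, map_pow]
      calc A (Q.coeff i) * A z ^ i ≤ 1 * r ^ i :=
            mul_le_mul (hQ i) (pow_le_pow_left₀ (A.nonneg _) hz i)
              (pow_nonneg (A.nonneg _) _) zero_le_one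
        _ = r ^ i := one_mul _
        _ ≤ r ^ n := pow_le_pow_right₀ hr (h i (Finset.mem_insert_self _ _))
  apply key
  intro i hi
  rw [Finset.mem_range] at hi
  omega

end

theorem esc_na {F : Type*} [Field F] (A : AbsoluteValue F ℝ) (hA : IsNonarchimedean A) (P : F[X])
    (hd : 2 ≤ P.natDegree) (hP : ∀ i, A (P.coeff i) ≤ 1) (hl : A P.leadingCoeff = 1)
    (c : F) (hc : 1 < A c) (γ : F) : ∃ m : ℕ, ∀ n ≥ m, ∀ y : F,
    (fun z => P.eval z + c)^[n] y = γ →
    A y ^ P.natDegree = A c ∧
      A (P.leadingCoeff * y ^ P.natDegree + c) ≤ A y ^ (P.natDegree - 1) := by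
  set d := P.natDegree with hdd
  set a := P.leadingCoeff with ha
  set q : F → F := fun z => P.eval z + c with hq
  -- splitting off the leading term
  have hsplit : ∀ z : F, P.eval z = P.eraseLead.eval z + a * z ^ d := by
    intro z
    conv_lhs => rw [← P.eraseLead_add_C_mul_X_pow]
    rw [eval_add, eval_mul, eval_C, eval_pow, eval_X]
  have hlow : ∀ (z : F) (r : ℝ), 1 ≤ r → A z ≤ r → A (P.eraseLead.eval z) ≤ r ^ (d - 1) := by
    intro z r hr hz
    apply na_eval_le A hA _ _ (eraseLead_natDegree_le P) z hr hz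
    intro i
    rw [eraseLead_coeff]
    split_ifs with h
    · rw [map_zero]; exact zero_le_one
    · exact hP i
  -- the range where the map multiplies
  have hbig : ∀ z : F, 1 < A z → A c < A z ^ d → A (q z) = A z ^ d := by
    intro z hz hcz
    have h1 : A (P.eraseLead.eval z) < A z ^ d := by
      refine (hlow z (A z) hz.le le_rfl).trans_lt ?_
      exact pow_lt_pow_right₀ hz (by omega)
    have e : q z = a * z ^ d + (P.eraseLead.eval z + c) := by
      simp only [hq]; rw [hsplit]; ring
    have h2 : A (a * z ^ d) = A z ^ d := by rw [map_mul, hl, one_mul, map_pow]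
    rw [e, na_add_eq A hA, h2]
    rw [h2]
    exact (hA _ _).trans_lt (max_lt h1 hcz)
  have hone : ∀ z : F, A c < A z ^ d → 1 < A z := by
    intro z hz
    by_contra hcon
    push Not at hcon
    have := pow_le_one₀ (n := d) (A.nonneg z) hcon
    linarith
  have hgrow : ∀ (n : ℕ) (z : F), A c < A z ^ d → A c < A (q^[n] z) ^ d ∧
      A z ^ d ^ n = A (q^[n] z) := by
    intro n
    induction n with
    | zero => intro z hz; simpa using hz
    | succ n ih =>
      intro z hz
      have h1 := hone z hz
      have h2 := hbig z h1 hz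
      have h3 : A c < A (q z) ^ d := by
        rw [h2]
        calc A c < A z ^ d := hz
          _ ≤ (A z ^ d) ^ d := le_self_pow₀ (hc.le.trans hz.le) (by omega)
      obtain ⟨h4, h5⟩ := ih (q z) h3
      rw [Function.iterate_succ_apply]
      refine ⟨h4, ?_⟩
      rw [← h5, h2, ← pow_mul, pow_succ, mul_comm]
  obtain ⟨m, hm⟩ := pow_unbounded_of_one_lt (A γ) hc
  -- no point above `γ` at large distance escapes
  have hno : ∀ k ≥ m + 1, ∀ z : F, q^[k] z = γ → A z ^ d ≤ A c := by
    intro k hk z hz
    by_contra hcon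
    push Not at hcon
    obtain ⟨j, rfl⟩ : ∃ j, k = j + 1 := ⟨k - 1, by omega⟩
    have h1 := (hgrow (j + 1) z hcon).2
    rw [hz, pow_succ', pow_mul] at h1
    have h2 : A c ^ m ≤ A c ^ d ^ j := by
      apply pow_le_pow_right₀ hc.le
      have : j < d ^ j := Nat.lt_pow_self (by omega)
      omega
    have h3 : A c ^ d ^ j ≤ (A z ^ d) ^ d ^ j := pow_le_pow_left₀ (A.nonneg _) hcon.le _
    linarith
  have heq : ∀ k ≥ m + 2, ∀ z : F, q^[k] z = γ → A z ^ d = A c := by
    intro k hk z hz
    obtain ⟨j, rfl⟩ : ∃ j, k = j + 1 := ⟨k - 1, by omega⟩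
    refine le_antisymm (hno _ (by omega) z hz) ?_
    by_contra hcon
    push Not at hcon
    rw [Function.iterate_succ_apply] at hz
    have h1 := hno j (by omega) (q z) hz
    have h2 : A (P.eval z) < A c := by
      rcases le_or_gt (A z) 1 with h3 | h3
      · have h4 := na_eval_le A hA P hP (le_refl _) z (le_refl (1 : ℝ)) h3
        rw [one_pow] at h4
        linarith
      · have h4 := na_eval_le A hA P hP (le_refl _) z h3.le le_rfl
        exact h4.trans_lt hcon
    have h3 : A (q z) = A c := by
      simp only [hq]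
      rw [add_comm, na_add_eq A hA h2]
    rw [h3] at h1
    have h4 : A c ^ 1 < A c ^ d := pow_lt_pow_right₀ hc (by omega)
    rw [pow_one] at h4
    linarith
  refine ⟨m + 3, fun n hn y hy => ?_⟩
  have h1 := heq n (by omega) y hy
  refine ⟨h1, ?_⟩
  obtain ⟨j, rfl⟩ : ∃ j, n = j + 1 := ⟨n - 1, by omega⟩
  rw [Function.iterate_succ_apply] at hy
  have h2 := heq j (by omega) (q y) hy
  have h3 : A (q y) = A y := by
    have : A (q y) ^ d = A y ^ d := by rw [h2, h1]
    exact (pow_left_inj₀ (A.nonneg _) (A.nonneg _) (by omega)).mp this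
  have hy1 : 1 < A y := by
    by_contra hcon
    push Not at hcon
    have := pow_le_one₀ (n := d) (A.nonneg y) hcon
    linarith
  have e : a * y ^ d + c = q y - P.eraseLead.eval y := by
    simp only [hq]; rw [hsplit]; ring
  rw [e]
  refine (na_sub_le A hA _ _).trans (max_le ?_ (hlow y (A y) hy1.le le_rfl))
  rw [h3]
  exact le_self_pow₀ hy1.le (by omega)

end Pool.Agent.TFS
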