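import Mathlib
import Pool.Agent.PSH.Esc

set_option autoImplicit false

/-!
# Local obstructions for polynomials: from an automorphism of a large field to the density
-/

namespace Pool.Agent.TFS

open Polynomial NumberField IsDedekindDomain
open Pool.Agent.TameArb

/-- Obstruction principle. -/
theorem dens_of_obstr {K : Type} [Field K] [NumberField K] (φ : K[X]) (hd : 2 ≤ φ.natDegree)
    (Γ : Finset K) (n : ℕ) {Ω : Type*} [Field Ω] [IsAlgClosed Ω] [Algebra K Ω] (τ : Ω ≃ₐ[K] Ω)
    (h : ∀ γ ∈ Γ, ∀ y : Ω, (ph φ)^[n] y = algebraMap K Ω γ → τ y ≠ y) : PosDens (GP φ Γ) := by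
  classical
  set f : K[X] := ∏ γ ∈ Γ, (itp φ n - C γ) with hf
  have hf0 : f ≠ 0 := by
    rw [hf]
    apply Finset.prod_ne_zero_iff.mpr
    intro γ _ h0
    have h1 : itp φ n = C γ := sub_eq_zero.mp h0
    have h2 := itp_natDegree φ n
    rw [h1, natDegree_C] at h2
    have : 0 < φ.natDegree ^ n := by positivity
    omega
  obtain ⟨L, _, _, _, _, hsplit⟩ := exists_split K f
  have hne : f.map (algebraMap K L) ≠ 0 :=
    (Polynomial.map_ne_zero_iff (algebraMap K L).injective).mpr hf0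
  have hsp : ∀ γ ∈ Γ, ((itp φ n).map (algebraMap K L) - C (algebraMap K L γ)).Splits := by
    intro γ hγ
    have h1 : (itp φ n - C γ).map (algebraMap K L) ∣ f.map (algebraMap K L) :=
      Polynomial.map_dvd _ (Finset.dvd_prod_of_mem _ hγ)
    have h2 := hsplit.of_dvd hne h1
    rwa [Polynomial.map_sub, map_C] at h2
  let ι : L →ₐ[K] Ω := IsAlgClosed.lift
  let _ : Algebra L Ω := ι.toRingHom.toAlgebra
  have hst : IsScalarTower K L Ω := IsScalarTower.of_algebraMap_eq fun x => (ι.commutes x).symm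
  let g : L ≃ₐ[K] L := AlgEquiv.restrictNormal τ L
  have hg : ∀ x : L, algebraMap L Ω (g x) = τ (algebraMap L Ω x) := fun x =>
    AlgEquiv.restrictNormal_commutes τ L x
  refine PSH.EscA.dens_of_auto φ hd Γ n hsp g fun γ hγ x hx hgx => ?_
  have h1 : ι ((ph φ)^[n] x) = (ph φ)^[n] (ι x) := iter_hom φ ι n x
  rw [hx, ι.commutes] at h1
  refine h γ hγ (ι x) h1.symm ?_
  have h2 := hg x
  rw [hgx] at h2
  exact h2.symm

end Pool.Agent.TFS
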