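import Mathlib

/-!
# Roots of `X ^ l - b` close to a point, and automorphisms without fixed roots
-/

set_option autoImplicit false

open Polynomial

namespace Pool.Agent.TFS

section

variable {L : Type*} [Field L] (A : AbsoluteValue L ℝ) (hA : IsNonarchimedean A)

include hA in
theorem root_le_sub (x y : L) : A (x - y) ≤ max (A x) (A y) := by
  have := hA x (-y)
  rwa [← sub_eq_add_neg, AbsoluteValue.map_neg] at this

include hA in
theorem root_zeta {l : ℕ} (hl : l.Prime) {ζ : L} (hζ : IsPrimitiveRoot ζ l) :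
    A (l : L) ≤ A (1 - ζ) ^ (l - 1) := by
  obtain ⟨n, rfl⟩ : ∃ n, l = n + 1 := ⟨l - 1, by have := hl.one_lt; omega⟩
  have h1 := hζ.prod_one_sub_pow_eq_order
  have hz1 : A ζ = 1 := by
    have h2 : A ζ ^ (n + 1) = 1 := by rw [← map_pow, hζ.pow_eq_one, map_one]
    exact (pow_eq_one_iff_of_nonneg (AbsoluteValue.nonneg A ζ) (by omega)).mp h2
  have h3 : ∀ k : ℕ, A (1 - ζ ^ (k + 1)) ≤ A (1 - ζ) := by
    intro k
    induction k with
    | zero => simp
    | succ k ih =>
      have e : 1 - ζ ^ (k + 1 + 1) = (1 - ζ ^ (k + 1)) - (-(ζ ^ (k + 1) * (1 - ζ))) := by ring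
      rw [e]
      refine (root_le_sub A hA _ _).trans (max_le ih ?_)
      rw [AbsoluteValue.map_neg, map_mul, map_pow, hz1, one_pow, one_mul]
  have h4 : A (((n + 1 : ℕ) : L)) = ∏ k ∈ Finset.range n, A (1 - ζ ^ (k + 1)) := by
    rw [← map_prod, h1]
    push_cast
    rfl
  rw [h4, Nat.add_sub_cancel]
  calc ∏ k ∈ Finset.range n, A (1 - ζ ^ (k + 1)) ≤ ∏ _k ∈ Finset.range n, A (1 - ζ) :=
        Finset.prod_le_prod (fun k _ => AbsoluteValue.nonneg A _) (fun k _ => h3 k)
    _ = A (1 - ζ) ^ n := by rw [Finset.prod_const, Finset.card_range]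

include hA in
/-- distinct roots of `X ^ l - b` are far from each other -/
theorem root_dist {l : ℕ} (hl : l.Prime) {b t t' : L} (hb : b ≠ 0) (ht : t ^ l = b)
    (ht' : t' ^ l = b) (hne : t' ≠ t) :
    A (l : L) * A t ^ (l - 1) ≤ A (t - t') ^ (l - 1) := by
  have ht0 : t ≠ 0 := by
    rintro rfl
    rw [zero_pow hl.ne_zero] at ht
    exact hb ht.symm
  have h1 : (t' / t) ^ l = 1 := by
    rw [div_pow, ht, ht', div_self hb]
  have h2 : t' / t ≠ 1 := by
    intro h
    rw [div_eq_one_iff_eq ht0] at h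
    exact hne h
  have h3 : IsPrimitiveRoot (t' / t) l := by
    have := Fact.mk hl
    have h := IsPrimitiveRoot.orderOf (t' / t)
    rwa [orderOf_eq_prime h1 h2] at h
  have h4 := root_zeta A hA hl h3
  have h5 : t - t' = t * (1 - t' / t) := by field_simp
  rw [h5, map_mul, mul_pow, mul_comm]
  exact mul_le_mul_of_nonneg_left h4 (by positivity)

include hA in
/-- if `y` is very close to the zeros of `X ^ l - b`, then there is a zero fixed by every isometry
fixing `b` and `y` -/
theorem root_fixed [IsAlgClosed L] {l : ℕ} (hl : l.Prime) (_hl0 : (l : L) ≠ 0) {b y : L}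
    (hy : A (y ^ l - b) ^ (l - 1) < A (l : L) ^ l * A b ^ (l - 1)) :
    ∃ t : L, t ^ l = b ∧ ∀ τ : L ≃+* L, (∀ x, A (τ x) = A x) → τ b = b → τ y = y → τ t = t := by
  classical
  have hl1 := hl.one_lt
  have hb : b ≠ 0 := by
    rintro rfl
    rw [map_zero, zero_pow (by omega), mul_zero] at hy
    exact absurd hy (not_lt.mpr (pow_nonneg (AbsoluteValue.nonneg A _) _))
  have hmon : (X ^ l - C b : L[X]).Monic := monic_X_pow_sub_C _ hl.ne_zero
  have hspl : (X ^ l - C b : L[X]).Splits := IsAlgClosed.splits _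
  have hdeg : (X ^ l - C b : L[X]).roots.card = l := by
    rw [← hspl.natDegree_eq_card_roots, natDegree_X_pow_sub_C]
  have hev := hspl.eval_eq_prod_roots_of_monic hmon y
  rw [eval_sub, eval_pow, eval_X, eval_C] at hev
  have hmem : ∀ t ∈ (X ^ l - C b : L[X]).roots, t ^ l = b := by
    intro t ht
    have := (mem_roots hmon.ne_zero).mp ht
    rw [IsRoot.def, eval_sub, eval_pow, eval_X, eval_C, sub_eq_zero] at this
    exact this
  have hne : (X ^ l - C b : L[X]).roots.toFinset.Nonempty := by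
    rw [Multiset.toFinset_nonempty]
    intro h
    rw [h, Multiset.card_zero] at hdeg
    omega
  obtain ⟨t, htm, hmin⟩ := Finset.exists_min_image _ (fun t => A (y - t)) hne
  have ht : t ^ l = b := hmem t (Multiset.mem_toFinset.mp htm)
  have h1 : A (y - t) ^ l ≤ A (y ^ l - b) := by
    rw [hev, map_multiset_prod, Multiset.map_map]
    have h2 : ∀ s : Multiset L, (∀ x ∈ s, A (y - t) ≤ A (y - x)) →
        A (y - t) ^ s.card ≤ (s.map (A ∘ fun x => y - x)).prod := by
      intro s
      induction s using Multiset.induction_on with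
      | empty => intro _; simp
      | cons a s ih =>
        intro h
        rw [Multiset.card_cons, Multiset.map_cons, Multiset.prod_cons, pow_succ, mul_comm]
        have h3 := h a (Multiset.mem_cons_self a s)
        have h4 := ih (fun x hx => h x (Multiset.mem_cons_of_mem hx))
        exact mul_le_mul h3 h4 (by positivity) (AbsoluteValue.nonneg A _)
    have h5 := h2 _ (fun x hx => hmin x (Multiset.mem_toFinset.mpr hx))
    rwa [hdeg] at h5
  refine ⟨t, ht, fun τ hτ htb hty => ?_⟩
  by_contra hcon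
  have htt : (τ t) ^ l = b := by rw [← map_pow, ht, htb]
  have h2 := root_dist A hA hl hb ht htt hcon
  have h3 : A (t - τ t) ≤ A (y - t) := by
    have e : t - τ t = (y - τ t) - (y - t) := by ring
    have e2 : A (y - τ t) = A (y - t) := by
      rw [← hτ (y - t), map_sub τ, hty]
    rw [e]
    refine (root_le_sub A hA _ _).trans (max_le e2.le le_rfl)
  have h4 : A (l : L) * A t ^ (l - 1) ≤ A (y - t) ^ (l - 1) :=
    h2.trans (pow_le_pow_left₀ (AbsoluteValue.nonneg A _) h3 _)
  have h5 : (A (l : L) * A t ^ (l - 1)) ^ l ≤ (A (y - t) ^ (l - 1)) ^ l :=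
    pow_le_pow_left₀ (by positivity) h4 _
  have e5 : (A (l : L) * A t ^ (l - 1)) ^ l = A (l : L) ^ l * A b ^ (l - 1) := by
    rw [← ht, map_pow, mul_pow]
    ring
  have e6 : (A (y - t) ^ (l - 1)) ^ l = (A (y - t) ^ l) ^ (l - 1) := by ring
  have h6 : (A (y - t) ^ l) ^ (l - 1) ≤ A (y ^ l - b) ^ (l - 1) :=
    pow_le_pow_left₀ (by positivity) h1 _
  rw [e5, e6] at h5
  linarith

end

/-- an automorphism moving all zeros of `X ^ l - b` -/
theorem exists_tau {F L : Type*} [Field F] [Field L] [Algebra F L] [IsGalois F L]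
    [IsAlgClosed L] {l : ℕ} (hl : l.Prime) (hl0 : (l : F) ≠ 0) {b : F} (hb : ∀ x : F, x ^ l ≠ b) :
    ∃ τ : L ≃ₐ[F] L, ∀ t : L, t ^ l = algebraMap F L b → τ t ≠ t := by
  classical
  have hl1 := hl.one_lt
  have : NeZero (l : L) := ⟨by
    rw [← map_natCast (algebraMap F L)]
    exact (_root_.map_ne_zero (algebraMap F L)).mpr hl0⟩
  obtain ⟨ζ, hζ⟩ := HasEnoughRootsOfUnity.exists_primitiveRoot L l
  obtain ⟨t0, ht0⟩ := IsAlgClosed.exists_pow_nat_eq (algebraMap F L b) hl.pos
  have hb0 : b ≠ 0 := by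
    rintro rfl
    exact hb 0 (zero_pow hl.ne_zero)
  have hb0' : algebraMap F L b ≠ 0 := (_root_.map_ne_zero (algebraMap F L)).mpr hb0
  have ht00 : t0 ≠ 0 := by
    rintro rfl
    rw [zero_pow hl.ne_zero] at ht0
    exact hb0' ht0.symm
  have hirr : Irreducible (X ^ l - C b : F[X]) := X_pow_sub_C_irreducible_of_prime hl hb
  have hint : IsIntegral F t0 := Algebra.IsIntegral.isIntegral t0
  have hintζ : IsIntegral F ζ := Algebra.IsIntegral.isIntegral ζ
  have hmin : minpoly F t0 = X ^ l - C b := by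
    symm
    apply minpoly.eq_of_irreducible_of_monic hirr _ (monic_X_pow_sub_C _ hl.ne_zero)
    simp [ht0]
  have hnot : t0 ∉ IntermediateField.adjoin F {ζ} := by
    intro hmem
    have h1 : (minpoly F t0).natDegree ≤
        Module.finrank F (IntermediateField.adjoin F ({ζ} : Set L)) := by
      have : FiniteDimensional F (IntermediateField.adjoin F ({ζ} : Set L)) :=
        IntermediateField.adjoin.finiteDimensional hintζ
      have h2 := minpoly.natDegree_le (A := F)
        (⟨t0, hmem⟩ : IntermediateField.adjoin F ({ζ} : Set L))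
      have h3 : minpoly F (⟨t0, hmem⟩ : IntermediateField.adjoin F ({ζ} : Set L)) =
          minpoly F t0 := by
        rw [← minpoly.algebraMap_eq (B' := L)
          (algebraMap (IntermediateField.adjoin F ({ζ} : Set L)) L).injective]
        rfl
      rwa [h3] at h2
    rw [IntermediateField.adjoin.finrank hintζ, hmin, natDegree_X_pow_sub_C] at h1
    have h4 : (minpoly F ζ).natDegree ≤ l - 1 := by
      have h5 : minpoly F ζ ∣ cyclotomic l F := by
        apply minpoly.dvd
        rw [aeval_def, eval₂_eq_eval_map, map_cyclotomic]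
        exact (isRoot_cyclotomic_iff.mpr hζ)
      have h6 := natDegree_le_of_dvd h5 (cyclotomic_ne_zero l F)
      rwa [natDegree_cyclotomic, Nat.totient_prime hl] at h6
    omega
  have hff := InfiniteGalois.fixedField_fixingSubgroup
    (IntermediateField.adjoin F ({ζ} : Set L))
  have hnot2 : t0 ∉ IntermediateField.fixedField
      (IntermediateField.adjoin F ({ζ} : Set L)).fixingSubgroup := by
    rw [hff]
    exact hnot
  rw [IntermediateField.mem_fixedField_iff] at hnot2
  push Not at hnot2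
  obtain ⟨τ, hτ, hτt⟩ := hnot2
  have hτζ : τ ζ = ζ := by
    rw [IntermediateField.mem_fixingSubgroup_iff] at hτ
    exact hτ ζ (IntermediateField.mem_adjoin_simple_self F ζ)
  refine ⟨τ, fun t ht hfix => hτt ?_⟩
  have h7 : (t0 / t) ^ l = 1 := by
    rw [div_pow, ht0, ht, div_self hb0']
  have ht00' : t ≠ 0 := by
    rintro rfl
    rw [zero_pow hl.ne_zero] at ht
    exact hb0' ht.symm
  have : NeZero l := ⟨hl.ne_zero⟩
  obtain ⟨i, -, hi⟩ := hζ.eq_pow_of_pow_eq_one h7
  have h8 : t0 = ζ ^ i * t := by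
    rw [hi, div_mul_cancel₀ _ ht00']
  rw [h8, map_mul, map_pow, hτζ, hfix]

/-- an automorphism of the algebraic closure moving all zeros of `X ^ l - b` -/
theorem exists_moving {F : Type*} [Field F] [CharZero F] {l : ℕ} (hl : l.Prime) (b : F)
    (hb : ∀ x : F, x ^ l ≠ b) :
    ∃ τ : AlgebraicClosure F ≃ₐ[F] AlgebraicClosure F, ∀ θ : AlgebraicClosure F,
      θ ^ l = algebraMap F (AlgebraicClosure F) b → τ θ ≠ θ := by
  have : IsGalois F (AlgebraicClosure F) := IsAlgClosure.isGalois F (AlgebraicClosure F)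
  exact exists_tau hl (Nat.cast_ne_zero.mpr hl.ne_zero) hb

end Pool.Agent.TFS
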