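import Mathlib
import Pool.Agent.TFS.Obs
import Pool.Agent.TFS.EscNa
import Pool.Agent.TFS.Root

set_option autoImplicit false

/-!
# The nonarchimedean obstruction for the translates of a polynomial
-/

namespace Pool.Agent.TFS

open Polynomial NumberField IsDedekindDomain
open Pool.Agent.TameArb

/-- The local statement over a valued field. -/
theorem na_obstr {L : Type*} [Field L] [IsAlgClosed L] (A : AbsoluteValue L ℝ)
    (hA : IsNonarchimedean A) (P : L[X]) (hd : 2 ≤ P.natDegree) (hP : ∀ i, A (P.coeff i) ≤ 1)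
    (hlead : A P.leadingCoeff = 1) {l : ℕ} (hl : l.Prime) (hld : l ∣ P.natDegree) (c : L)
    (h1 : 1 < A (l : L) ^ (P.natDegree * l) * A c ^ (l - 1)) (τ : L ≃+* L)
    (hτ : ∀ x, A (τ x) = A x) (hτb : τ (-c / P.leadingCoeff) = -c / P.leadingCoeff)
    (hτm : ∀ θ : L, θ ^ l = -c / P.leadingCoeff → τ θ ≠ θ) (γ : L) :
    ∃ m : ℕ, ∀ n ≥ m, ∀ y : L, (fun z => P.eval z + c)^[n] y = γ → τ y ≠ y := by
  have hl1 : A (l : L) ≤ 1 := hA.apply_natCast_le_one
  have hl2 : 2 ≤ l := hl.two_le
  have hAl0 : 0 ≤ A (l : L) := A.nonneg _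
  have hc : 1 < A c := by
    by_contra hcon
    push Not at hcon
    have h2 : A (l : L) ^ (P.natDegree * l) ≤ 1 := pow_le_one₀ hAl0 hl1
    have h3 : A c ^ (l - 1) ≤ 1 := pow_le_one₀ (A.nonneg _) hcon
    have h4 : A (l : L) ^ (P.natDegree * l) * A c ^ (l - 1) ≤ 1 :=
      mul_le_one₀ h2 (pow_nonneg (A.nonneg _) _) h3
    linarith
  have hlne : (l : L) ≠ 0 := by
    intro h0
    rw [h0, map_zero, zero_pow (by positivity), zero_mul] at h1
    linarith
  have hlead0 : P.leadingCoeff ≠ 0 := by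
    intro h0
    rw [h0, map_zero] at hlead
    exact zero_ne_one hlead
  obtain ⟨m, hm⟩ := esc_na A hA P hd hP hlead c hc γ
  refine ⟨m, fun n hn y hy hfix => ?_⟩
  obtain ⟨h2, h3⟩ := hm n hn y hy
  obtain ⟨e, he⟩ := hld
  set d := P.natDegree with hdd
  set a := P.leadingCoeff with ha
  -- `1 < A y`
  have hy1 : 1 < A y := by
    by_contra hcon
    push Not at hcon
    have := pow_le_one₀ (n := d) (A.nonneg y) hcon
    linarith
  have hw : A ((y ^ e) ^ l - -c / a) = A (a * y ^ d + c) := by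
    have e1 : (y ^ e) ^ l - -c / a = (a * y ^ d + c) / a := by
      rw [← pow_mul, mul_comm e l, ← he]
      field_simp
      ring
    rw [e1, map_div₀, hlead, div_one]
  have hb : A (-c / a) = A y ^ d := by
    rw [map_div₀, hlead, div_one, AbsoluteValue.map_neg, h2]
  have hyd : A y ^ d = A y ^ (d - 1) * A y := by
    rw [← pow_succ]; congr 1; omega
  -- the key inequality `1 < A l ^ l * A y ^ (l - 1)`
  have h4 : 1 < A (l : L) ^ l * A y ^ (l - 1) := by
    by_contra hcon
    push Not at hcon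
    have h5 : (A (l : L) ^ l * A y ^ (l - 1)) ^ d ≤ 1 :=
      pow_le_one₀ (mul_nonneg (pow_nonneg hAl0 _) (pow_nonneg (A.nonneg _) _)) hcon
    have h6 : (A (l : L) ^ l * A y ^ (l - 1)) ^ d = A (l : L) ^ (d * l) * A c ^ (l - 1) := by
      rw [← h2, mul_pow, ← pow_mul, ← pow_mul, ← pow_mul, mul_comm l d, mul_comm (l - 1) d]
    rw [h6] at h5
    linarith
  have h7 : A ((y ^ e) ^ l - -c / a) ^ (l - 1) < A (l : L) ^ l * A (-c / a) ^ (l - 1) := by
    rw [hw, hb, hyd, mul_pow]
    have hpos : 0 < (A y ^ (d - 1)) ^ (l - 1) := by positivity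
    calc A (a * y ^ d + c) ^ (l - 1) ≤ (A y ^ (d - 1)) ^ (l - 1) :=
          pow_le_pow_left₀ (A.nonneg _) h3 _
      _ = (A y ^ (d - 1)) ^ (l - 1) * 1 := (mul_one _).symm
      _ < (A y ^ (d - 1)) ^ (l - 1) * (A (l : L) ^ l * A y ^ (l - 1)) :=
          mul_lt_mul_of_pos_left h4 hpos
      _ = A (l : L) ^ l * ((A y ^ (d - 1)) ^ (l - 1) * A y ^ (l - 1)) := by ring
  obtain ⟨θ, hθ, hθτ⟩ := root_fixed A hA hl hlne h7
  exact hτm θ hθ (hθτ τ hτ hτb (by rw [map_pow, hfix]))

theorem na_full {F0 : Type*} [NontriviallyNormedField F0] [IsUltrametricDist F0]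
    [CompleteSpace F0] [CharZero F0] (P : F0[X]) (hd : 2 ≤ P.natDegree)
    (hP : ∀ i, ‖P.coeff i‖ ≤ 1) (hlead : ‖P.leadingCoeff‖ = 1) {l : ℕ} (hl : l.Prime)
    (hld : l ∣ P.natDegree) (c : F0) (h1 : 1 < ‖(l : F0) ^ (P.natDegree * l) * c ^ (l - 1)‖)
    (h2 : ∀ x : F0, x ^ l ≠ -c / P.leadingCoeff) :
    ∃ τ : AlgebraicClosure F0 ≃ₐ[F0] AlgebraicClosure F0, ∀ γ : F0, ∃ m : ℕ, ∀ n ≥ m,
      ∀ y : AlgebraicClosure F0, (fun z => aeval z (P + C c))^[n] y = algebraMap F0 _ γ →
        τ y ≠ y := by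
  classical
  let Ω := AlgebraicClosure F0
  obtain ⟨τ, hτ⟩ := exists_moving hl (-c / P.leadingCoeff) h2
  let A : AbsoluteValue Ω ℝ :=
    { toFun := spectralNorm F0 Ω
      map_mul' := fun x y => by
        simp only [← spectralMulAlgNorm_def, map_mul]
      nonneg' := fun x => spectralNorm_nonneg x
      eq_zero' := fun x => ⟨fun h => eq_zero_of_map_spectralNorm_eq_zero h
        (Algebra.IsAlgebraic.isAlgebraic x), fun h => by rw [h]; exact spectralNorm_zero⟩
      add_le' := fun x y => IsNonarchimedean.add_le spectralNorm_nonneg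
        isNonarchimedean_spectralNorm }
  have hAdef : ∀ x, A x = spectralNorm F0 Ω x := fun x => rfl
  have hA : IsNonarchimedean A := isNonarchimedean_spectralNorm (K := F0) (L := Ω)
  have hAe : ∀ x : F0, A (algebraMap F0 Ω x) = ‖x‖ := fun x => by
    rw [hAdef, spectralNorm_extends]
  have hinj : Function.Injective (algebraMap F0 Ω) := (algebraMap F0 Ω).injective
  have hnd : (P.map (algebraMap F0 Ω)).natDegree = P.natDegree :=
    natDegree_map_eq_of_injective hinj P
  have hlc : (P.map (algebraMap F0 Ω)).leadingCoeff = algebraMap F0 Ω P.leadingCoeff :=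
    leadingCoeff_map_of_injective hinj P
  refine ⟨τ, fun γ => ?_⟩
  have hb : -(algebraMap F0 Ω c) / (P.map (algebraMap F0 Ω)).leadingCoeff =
      algebraMap F0 Ω (-c / P.leadingCoeff) := by
    rw [hlc, map_div₀, map_neg]
  obtain ⟨m, hm⟩ := na_obstr A hA (P.map (algebraMap F0 Ω)) (by rw [hnd]; exact hd)
    (fun i => by rw [coeff_map, hAe]; exact hP i) (by rw [hlc, hAe]; exact hlead) hl
    (by rw [hnd]; exact hld) (algebraMap F0 Ω c)
    (by
      have e : (l : Ω) = algebraMap F0 Ω (l : F0) := (map_natCast _ _).symm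
      rw [hnd, e, hAe, hAe, ← norm_pow, ← norm_pow, ← norm_mul]
      exact h1)
    (τ : Ω ≃+* Ω) (fun x => by
      rw [hAdef, hAdef]; exact (spectralNorm_eq_of_equiv τ x).symm)
    (by rw [hb]; exact τ.commutes _) (fun θ hθ => by
      rw [hb] at hθ
      exact hτ θ hθ) (algebraMap F0 Ω γ)
  refine ⟨m, fun n hn y hy => hm n hn y ?_⟩
  rw [← hy]
  congr 1
  funext z
  simp only [map_add, aeval_C, eval_map_algebraMap]
  rfl

open scoped Valued in
theorem dens_na {K : Type} [Field K] [NumberField K] (P : K[X]) (hd : 2 ≤ P.natDegree)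
    (v : HeightOneSpectrum (𝓞 K)) (hP : ∀ i, v.valuation K (P.coeff i) ≤ 1)
    (hlead : v.valuation K P.leadingCoeff = 1) (l : ℕ) (hl : l.Prime) (hld : l ∣ P.natDegree)
    (c : K) (h1 : 1 < v.valuation K ((l : K) ^ (P.natDegree * l) * c ^ (l - 1)))
    (h2 : ∀ x : v.adicCompletion K,
      x ^ l ≠ algebraMap K (v.adicCompletion K) (-c / P.leadingCoeff))
    (Γ : Finset K) : PosDens (GP (P + C c) Γ) := by
  classical
  set F0 := v.adicCompletion K with hF0
  have hinj : Function.Injective (algebraMap K F0) := (algebraMap K F0).injective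
  have hval : ∀ x : K, Valued.v (algebraMap K F0 x) = v.valuation K x := fun x =>
    v.valuedAdicCompletion_eq_valuation' (K := K) x
  have hnd : (P.map (algebraMap K F0)).natDegree = P.natDegree :=
    natDegree_map_eq_of_injective hinj P
  have hlc : (P.map (algebraMap K F0)).leadingCoeff = algebraMap K F0 P.leadingCoeff :=
    leadingCoeff_map_of_injective hinj P
  have hchar : CharZero F0 := charZero_of_injective_algebraMap hinj
  obtain ⟨τ, hτ⟩ := na_full (F0 := F0) (P.map (algebraMap K F0)) (by rw [hnd]; exact hd)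
    (fun i => by
      rw [coeff_map, Valued.toNormedField.norm_le_one_iff, hval]
      exact hP i)
    (by
      rw [hlc]
      apply le_antisymm
      · rw [Valued.toNormedField.norm_le_one_iff, hval]; exact hlead.le
      · rw [Valued.toNormedField.one_le_norm_iff, hval]; exact hlead.ge)
    hl (by rw [hnd]; exact hld) (algebraMap K F0 c)
    (by
      have e : ((l : F0) ^ ((P.map (algebraMap K F0)).natDegree * l) *
          (algebraMap K F0 c) ^ (l - 1)) =
          algebraMap K F0 ((l : K) ^ (P.natDegree * l) * c ^ (l - 1)) := by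
        rw [hnd, map_mul, map_pow, map_pow, map_natCast]
      rw [e, Valued.toNormedField.one_lt_norm_iff, hval]
      exact h1)
    (fun x => by
      have := h2 x
      rw [map_div₀, map_neg] at this
      rw [hlc]
      exact this)
  have hlev : ∀ γ : K, ∃ m : ℕ, ∀ n ≥ m, ∀ y : AlgebraicClosure F0,
      (ph (P + C c))^[n] y = algebraMap K _ γ → τ y ≠ y := by
    intro γ
    obtain ⟨m, hm⟩ := hτ (algebraMap K F0 γ)
    refine ⟨m, fun n hn y hy => hm n hn y ?_⟩
    rw [IsScalarTower.algebraMap_apply K F0 (AlgebraicClosure _)] at hy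
    rw [← hy]
    congr 1
    funext z
    have e : P.map (algebraMap K F0) + C (algebraMap K F0 c) = (P + C c).map (algebraMap K F0) := by
      rw [Polynomial.map_add, map_C]
    rw [e, aeval_map_algebraMap]
    rfl
  choose m hm using hlev
  have hd' : 2 ≤ (P + C c).natDegree := by rw [natDegree_add_C]; exact hd
  exact dens_of_obstr (P + C c) hd' Γ (∑ γ ∈ Γ, m γ) (τ.restrictScalars K) fun γ hγ y hy =>
    hm γ _ (Finset.single_le_sum (f := m) (fun _ _ => Nat.zero_le _) hγ) y hy

end Pool.Agent.TFS
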