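import Mathlib
import Pool.Agent.TFS.Obs

set_option autoImplicit false

/-!
# The real obstruction: no real fixed point
-/

namespace Pool.Agent.TFS.RealP

open Polynomial NumberField IsDedekindDomain
open Pool.Agent.TameArb Pool.Agent.TFS

/-- no real fixed point: `s f` increases by at least `δ` and is bounded below -/
theorem real_bound (f : ℝ[X]) (hd : 2 ≤ f.natDegree) (h : ∀ x : ℝ, f.eval x ≠ x) :
    ∃ s δ m : ℝ, (s = 1 ∨ s = -1) ∧ 0 < δ ∧ (∀ x, s * x + δ ≤ s * f.eval x) ∧
      ∀ x, m ≤ s * f.eval x := by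
  have hg : ∀ x : ℝ, (f - X).eval x = f.eval x - x := fun x => by simp
  have hnd : (f - X).natDegree = f.natDegree := by
    apply natDegree_sub_eq_left_of_natDegree_lt
    rw [natDegree_X]; omega
  have hne : ∀ x : ℝ, (f - X).eval x ≠ 0 := fun x h0 => h x (by
    rw [hg] at h0; exact sub_eq_zero.mp h0)
  have hcont : Continuous fun x : ℝ => (f - X).eval x := (f - X).continuous
  -- constant sign
  have hsign : (∀ x : ℝ, 0 < (f - X).eval x) ∨ ∀ x : ℝ, (f - X).eval x < 0 := by
    by_contra hcon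
    rw [not_or] at hcon
    obtain ⟨h1, h2⟩ := hcon
    push Not at h1 h2
    obtain ⟨a, ha⟩ := h1
    obtain ⟨b, hb⟩ := h2
    obtain ⟨x, hx⟩ := mem_range_of_exists_le_of_exists_ge hcont ⟨a, ha⟩ ⟨b, hb⟩
    exact hne x hx
  -- the minimum of the distance
  have htend : Filter.Tendsto (fun x : ℝ => ‖(f - X).eval x‖) (Filter.cocompact ℝ)
      Filter.atTop := by
    apply Polynomial.tendsto_norm_atTop
    · rw [degree_eq_natDegree (by intro h0; rw [h0] at hnd; simp at hnd; omega), hnd]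
      exact_mod_cast (by omega : 0 < f.natDegree)
    · exact tendsto_norm_cocompact_atTop
  obtain ⟨x0, hx0⟩ := (hcont.norm).exists_forall_le htend
  have hδ : 0 < ‖(f - X).eval x0‖ := norm_pos_iff.mpr (hne x0)
  -- growth of `f`
  have htend2 : Filter.Tendsto (fun x : ℝ => ‖f.divX.eval x‖) (Filter.cocompact ℝ)
      Filter.atTop := by
    apply Polynomial.tendsto_norm_atTop
    · apply natDegree_pos_iff_degree_pos.mp
      rw [natDegree_divX_eq_natDegree_tsub_one]
      omega
    · exact tendsto_norm_cocompact_atTop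
  obtain ⟨R, hR⟩ : ∃ R : ℝ, ∀ x : ℝ, R < ‖x‖ → 2 ≤ ‖f.divX.eval x‖ := by
    have h1 := htend2.eventually (Filter.eventually_ge_atTop (2 : ℝ))
    rw [← Metric.cobounded_eq_cocompact, ← comap_norm_atTop, Filter.eventually_comap,
      Filter.eventually_atTop] at h1
    obtain ⟨R, hR⟩ := h1
    exact ⟨R, fun x hx => hR ‖x‖ hx.le x rfl⟩
  have hbig : ∀ x : ℝ, R < ‖x‖ → 2 * ‖x‖ - ‖f.coeff 0‖ ≤ ‖f.eval x‖ := by
    intro x hx
    have h1 := hR x hx
    have e : f.eval x = f.divX.eval x * x + f.coeff 0 := by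
      conv_lhs => rw [← f.divX_mul_X_add]
      simp
    have h2 : ‖f.divX.eval x * x‖ ≤ ‖f.eval x‖ + ‖f.coeff 0‖ := by
      have : f.divX.eval x * x = f.eval x - f.coeff 0 := by rw [e]; ring
      rw [this]
      exact norm_sub_le _ _
    rw [norm_mul] at h2
    nlinarith [norm_nonneg x]
  have key : ∀ s : ℝ, (s = 1 ∨ s = -1) → (∀ x : ℝ, 0 < s * (f - X).eval x) →
      ∃ s δ m : ℝ, (s = 1 ∨ s = -1) ∧ 0 < δ ∧ (∀ x, s * x + δ ≤ s * f.eval x) ∧
        ∀ x, m ≤ s * f.eval x := by
    intro s hs hpos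
    have habs : ∀ y : ℝ, ‖s * y‖ = ‖y‖ := by
      intro y
      rcases hs with rfl | rfl <;> simp
    have h1 : ∀ x, s * x + ‖(f - X).eval x0‖ ≤ s * f.eval x := by
      intro x
      have h2 := hx0 x
      have h3 : ‖(f - X).eval x‖ = s * (f - X).eval x := by
        rw [← habs, Real.norm_of_nonneg (hpos x).le]
      have h4 : s * (f - X).eval x = s * f.eval x - s * x := by rw [hg]; ring

      linarith
    refine ⟨s, ‖(f - X).eval x0‖, -(max R ‖f.coeff 0‖) , hs, hδ, h1, fun x => ?_⟩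
    by_contra hcon
    push Not at hcon
    have hR0 : 0 ≤ max R ‖f.coeff 0‖ := le_max_of_le_right (norm_nonneg _)
    have h2 := h1 x
    have h3 : ‖f.eval x‖ = -(s * f.eval x) := by
      rw [← habs, Real.norm_of_nonpos (by linarith)]
    have h4 : ‖x‖ = -(s * x) := by
      rw [← habs, Real.norm_of_nonpos (by linarith)]
    have h5 : max R ‖f.coeff 0‖ < ‖x‖ := by linarith
    have h6 := hbig x (lt_of_le_of_lt (le_max_left _ _) h5)
    have h7 : ‖f.coeff 0‖ < ‖x‖ := lt_of_le_of_lt (le_max_right _ _) h5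
    linarith
  rcases hsign with h1 | h1
  · exact key 1 (Or.inl rfl) (fun x => by rw [one_mul]; exact h1 x)
  · exact key (-1) (Or.inr rfl) (fun x => by have := h1 x; linarith)

theorem dens_real {K : Type} [Field K] [NumberField K] (φ : K[X]) (hd : 2 ≤ φ.natDegree)
    (ρ : K →+* ℝ) (h : ∀ x : ℝ, (φ.map ρ).eval x ≠ x) (Γ : Finset K) : PosDens (GP φ Γ) := by
  classical
  have hnd : (φ.map ρ).natDegree = φ.natDegree := natDegree_map_eq_of_injective ρ.injective φ
  obtain ⟨s, δ, m, hs, hδ, h1, h2⟩ := real_bound (φ.map ρ) (by rw [hnd]; exact hd) h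
  have hiter : ∀ (n : ℕ) (x : ℝ), s * x + n * δ ≤ s * (fun x => (φ.map ρ).eval x)^[n] x := by
    intro n
    induction n with
    | zero => intro x; simp
    | succ n ih =>
      intro x
      rw [Function.iterate_succ_apply]
      have h3 := ih ((φ.map ρ).eval x)
      have h4 := h1 x
      push_cast
      linarith
  let _ : Algebra K ℂ := (Complex.ofRealHom.comp ρ).toAlgebra
  have halg : ∀ x : K, algebraMap K ℂ x = ((ρ x : ℝ) : ℂ) := fun x => rfl
  let τ : ℂ ≃ₐ[K] ℂ := AlgEquiv.ofRingEquiv (f := (starRingAut : ℂ ≃+* ℂ)) (by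
    intro x
    rw [halg]
    exact Complex.conj_ofReal _)
  have hτ : ∀ z : ℂ, τ z = (starRingEnd ℂ) z := fun z => rfl
  have hlev : ∀ γ : K, ∃ N : ℕ, ∀ n ≥ N, s * ρ γ < m + n * δ := by
    intro γ
    obtain ⟨N, hN⟩ := exists_nat_gt ((s * ρ γ - m) / δ)
    refine ⟨N, fun n hn => ?_⟩
    have h3 : (N : ℝ) ≤ n := by exact_mod_cast hn
    have h4 : (s * ρ γ - m) / δ < n := by linarith
    rw [div_lt_iff₀ hδ] at h4
    linarith
  choose N hN using hlev
  refine dens_of_obstr φ hd Γ (∑ γ ∈ Γ, N γ + 1) τ fun γ hγ y hy hfix => ?_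
  set n := ∑ γ ∈ Γ, N γ with hn
  have hNn : N γ ≤ n := Finset.single_le_sum (f := N) (fun _ _ => Nat.zero_le _) hγ
  rw [hτ, Complex.conj_eq_iff_real] at hfix
  obtain ⟨t, rfl⟩ := hfix
  have hcast : ∀ (k : ℕ) (t : ℝ), (ph φ)^[k] (t : ℂ) =
      (((fun x : ℝ => (φ.map ρ).eval x)^[k] t : ℝ) : ℂ) := by
    intro k
    induction k with
    | zero => intro t; rfl
    | succ k ih =>
      intro t
      rw [Function.iterate_succ_apply, Function.iterate_succ_apply, ← ih]
      congr 1
      show aeval (t : ℂ) φ = _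
      rw [eval_map]
      exact (hom_eval₂ φ ρ Complex.ofRealHom t).symm
  rw [hcast, halg] at hy
  have hy' := Complex.ofReal_injective hy
  rw [Function.iterate_succ_apply] at hy'
  have h3 := hiter n ((φ.map ρ).eval t)
  rw [hy'] at h3
  have h4 := h2 t
  have h5 := hN γ n hNn
  linarith

end Pool.Agent.TFS.RealP
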