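import Mathlib
import Pool.Agent.Arb.Rat2

set_option autoImplicit false

/-!
# The orbit of zero under `x ^ d + c` for integers `c`
-/

namespace Pool.Agent.TFS.IntOrb

open Polynomial NumberField IsDedekindDomain

/-- the orbit of zero under `x ^ d + c` grows in absolute value -/
theorem int_grow {d : ℕ} (hd : 2 ≤ d) {c : ℤ} (h0 : c ≠ 0) (h1 : c ≠ -1) (h2 : c ≠ -2) (n : ℕ) :
    |c| ≤ |(fun x : ℤ => x ^ d + c)^[n + 1] 0| ∧
      |(fun x : ℤ => x ^ d + c)^[n] 0| < |(fun x : ℤ => x ^ d + c)^[n + 1] 0| := by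
  have hd0 : d ≠ 0 := by omega
  rcases lt_or_ge 0 c with hc | hc
  · have hnn : ∀ n : ℕ, 0 ≤ (fun x : ℤ => x ^ d + c)^[n] 0 := by
      intro n
      induction n with
      | zero => simp
      | succ n ih =>
        rw [Function.iterate_succ_apply']
        have := pow_nonneg ih d
        show 0 ≤ _ ^ d + c
        linarith
    have hx := hnn n
    have hx' := hnn (n + 1)
    rw [abs_of_nonneg hx, abs_of_nonneg hx', abs_of_pos hc, Function.iterate_succ_apply']
    set x := (fun x : ℤ => x ^ d + c)^[n] 0 with hxd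
    show c ≤ x ^ d + c ∧ x < x ^ d + c
    have h3 : x ≤ x ^ d := by
      rcases hx.eq_or_lt with h | h
      · rw [← h, zero_pow hd0]
      · exact le_self_pow₀ (by omega) hd0
    constructor <;> linarith
  · have hc3 : 3 ≤ |c| := by
      rw [abs_of_nonpos hc]; omega
    induction n with
    | zero =>
      have e : (fun x : ℤ => x ^ d + c)^[0 + 1] 0 = c := by
        show (0 : ℤ) ^ d + c = c
        rw [zero_pow hd0, zero_add]
      rw [e]
      refine ⟨le_rfl, ?_⟩
      show |(0 : ℤ)| < |c|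
      rw [abs_zero]; linarith
    | succ n ih =>
      have h3 := ih.1
      rw [Function.iterate_succ_apply' _ (n + 1)]
      set x := (fun x : ℤ => x ^ d + c)^[n + 1] 0 with hxd
      show |c| ≤ |x ^ d + c| ∧ |x| < |x ^ d + c|
      have h4 : |x| ^ d - |c| ≤ |x ^ d + c| := by
        have h5 := abs_sub_abs_le_abs_sub (x ^ d) (-c)
        rw [abs_neg, sub_neg_eq_add, abs_pow] at h5
        exact h5
      have h6 : |x| ^ 2 ≤ |x| ^ d := pow_le_pow_right₀ (by linarith) hd
      have h7 : |x| < |x ^ d + c| := by nlinarith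
      exact ⟨by linarith, h7⟩

theorem int_orbit {d : ℕ} (hd : 2 ≤ d) {c : ℤ} (h0 : c ≠ 0) (h1 : c ≠ -1) (h2 : c ≠ -2)
    (i j : ℕ) (hij : i < j) : (fun x : ℚ => x ^ d + c)^[i] 0 ≠ (fun x : ℚ => x ^ d + c)^[j] 0 := by
  have hcast : ∀ n : ℕ, (fun x : ℚ => x ^ d + c)^[n] 0 =
      (((fun x : ℤ => x ^ d + c)^[n] 0 : ℤ) : ℚ) := by
    intro n
    induction n with
    | zero => simp
    | succ n ih => rw [Function.iterate_succ_apply', Function.iterate_succ_apply', ih]; push_cast; rfl
  have hmono : StrictMono fun n : ℕ => |(fun x : ℤ => x ^ d + c)^[n] 0| :=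
    strictMono_nat_of_lt_succ fun n => (int_grow hd h0 h1 h2 n).2
  intro h
  rw [hcast, hcast] at h
  have h3 := Int.cast_injective (α := ℚ) h
  have h4 := hmono hij
  simp only at h4
  rw [h3] at h4
  exact lt_irrefl _ h4

end Pool.Agent.TFS.IntOrb
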