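import Pool.Agent.TFS.Obs

/-!
# No fixed point in a real embedding
-/

set_option autoImplicit false

namespace Pool.Agent.TFS

open Polynomial NumberField IsDedekindDomain
open Pool.Agent.TameArb

namespace RealB

/-- no fixed point: a uniform distance -/
theorem dist_pos (q : ℝ[X]) (hd : 2 ≤ q.natDegree) (h : ∀ x : ℝ, q.eval x ≠ x) :
    ∃ δ : ℝ, 0 < δ ∧ ∀ x : ℝ, δ ≤ |q.eval x - x| := by
  set f : ℝ[X] := q - X with hf
  have hfd : f.natDegree = q.natDegree := by
    rw [hf]
    apply natDegree_sub_eq_left_of_natDegree_lt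
    rw [natDegree_X]
    omega
  have hdeg : 0 < f.degree := by
    rw [← natDegree_pos_iff_degree_pos]
    omega
  have ht : Filter.Tendsto (fun x : ℝ => ‖f.eval x‖) (Filter.cocompact ℝ) Filter.atTop :=
    f.tendsto_norm_atTop hdeg tendsto_norm_cocompact_atTop
  have hcont : Continuous fun x : ℝ => ‖f.eval x‖ := f.continuous.norm
  obtain ⟨x₀, hx₀⟩ := hcont.exists_forall_le ht
  refine ⟨‖f.eval x₀‖, ?_, fun x => ?_⟩
  · rw [norm_pos_iff, hf, eval_sub, eval_X]
    exact sub_ne_zero.mpr (h x₀)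
  · have h1 := hx₀ x
    have h2 : ‖f.eval x‖ = |q.eval x - x| := by
      rw [hf, eval_sub, eval_X, Real.norm_eq_abs]
    rwa [h2] at h1

/-- far away the polynomial is larger than the variable -/
theorem far (q : ℝ[X]) (hd : 2 ≤ q.natDegree) : ∃ R : ℝ, 0 ≤ R ∧ ∀ x : ℝ, R ≤ |x| →
    |x| ≤ |q.eval x| := by
  have hdeg : 0 < q.divX.degree := by
    rw [← natDegree_pos_iff_degree_pos, natDegree_divX_eq_natDegree_tsub_one]
    omega
  have ht : Filter.Tendsto (fun x : ℝ => ‖q.divX.eval x‖) (Filter.cocompact ℝ) Filter.atTop :=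
    q.divX.tendsto_norm_atTop hdeg tendsto_norm_cocompact_atTop
  have h1 : ∀ᶠ x in Filter.cocompact ℝ, (2 : ℝ) ≤ ‖q.divX.eval x‖ := ht.eventually_ge_atTop 2
  rw [← Metric.cobounded_eq_cocompact, ← comap_norm_atTop, Filter.eventually_comap,
    Filter.eventually_atTop] at h1
  obtain ⟨R, hR⟩ := h1
  refine ⟨max R |q.coeff 0|, le_max_of_le_right (abs_nonneg _), fun x hx => ?_⟩
  have h2 : (2 : ℝ) ≤ |q.divX.eval x| := hR |x| ((le_max_left _ _).trans hx) x rfl
  have h3 : q.eval x = q.divX.eval x * x + q.coeff 0 := by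
    conv_lhs => rw [← divX_mul_X_add q]
    simp
  have h4 : |q.coeff 0| ≤ |x| := (le_max_right _ _).trans hx
  have h5 : |q.divX.eval x * x| - |q.coeff 0| ≤ |q.eval x| := by
    rw [h3]
    have := abs_sub_abs_le_abs_sub (q.divX.eval x * x) (-q.coeff 0)
    rwa [abs_neg, sub_neg_eq_add] at this
  rw [abs_mul] at h5
  nlinarith [abs_nonneg x]

/-- constant sign -/
theorem sign (q : ℝ[X]) (h : ∀ x : ℝ, q.eval x ≠ x) :
    (∀ x : ℝ, x < q.eval x) ∨ ∀ x : ℝ, q.eval x < x := by
  by_contra hcon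
  rw [not_or] at hcon
  obtain ⟨h1, h2⟩ := hcon
  push Not at h1 h2
  obtain ⟨a, ha⟩ := h1
  obtain ⟨b, hb⟩ := h2
  have hcont : Continuous fun x : ℝ => q.eval x - x := q.continuous.sub continuous_id
  obtain ⟨x, hx⟩ := mem_range_of_exists_le_of_exists_ge hcont
    (c := 0) ⟨a, by linarith⟩ ⟨b, by linarith⟩
  exact h x (sub_eq_zero.mp hx)

/-- **No real preimages far back.** -/
theorem no_preimage (q : ℝ[X]) (hd : 2 ≤ q.natDegree) (h : ∀ x : ℝ, q.eval x ≠ x) (γ : ℝ) :
    ∃ m : ℕ, ∀ n ≥ m, ∀ y : ℝ, (fun x => q.eval x)^[n] y ≠ γ := by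
  obtain ⟨δ, hδ, h1⟩ := dist_pos q hd h
  obtain ⟨R, hR0, hR⟩ := far q hd
  obtain ⟨m, hm⟩ := exists_nat_gt ((|γ| + R) / δ + 1)
  refine ⟨m, fun n hn y hy => ?_⟩
  have hmn : (m : ℝ) ≤ n := by exact_mod_cast hn
  have hn0 : (|γ| + R) / δ < n - 1 := by linarith
  have hn1 : |γ| + R < (n - 1) * δ := by rwa [div_lt_iff₀ hδ] at hn0
  have hn2 : 1 ≤ n := by
    by_contra h2
    have h3 : n = 0 := by omega
    rw [h3] at hn1
    have := abs_nonneg γ
    push_cast at hn1
    nlinarith
  obtain ⟨k, rfl⟩ : ∃ k, n = k + 1 := ⟨n - 1, by omega⟩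
  rw [Function.iterate_succ_apply] at hy
  push_cast at hn1
  rw [add_sub_cancel_right] at hn1
  rcases sign q h with hs | hs
  · -- increasing
    have hup : ∀ (j : ℕ) (z : ℝ), z + j * δ ≤ (fun x => q.eval x)^[j] z := by
      intro j
      induction j with
      | zero => intro z; simp
      | succ j ih =>
        intro z
        rw [Function.iterate_succ_apply]
        have h2 := ih (q.eval z)
        have h3 := h1 z
        rw [abs_of_pos (by linarith [hs z])] at h3
        push_cast
        linarith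
    have hlow : ∀ z : ℝ, -R ≤ q.eval z := by
      intro z
      have h2 := hs z
      rcases le_or_gt R |z| with h3 | h3
      · have h4 := hR z h3
        by_contra h5
        push Not at h5
        rw [abs_of_neg (by linarith : q.eval z < 0)] at h4
        have h6 := neg_abs_le z
        linarith
      · have h6 := (abs_lt.mp h3).1
        linarith
    have h2 := hup k (q.eval y)
    rw [hy] at h2
    have h3 := hlow y
    have h4 := le_abs_self γ
    linarith
  · have hdn : ∀ (j : ℕ) (z : ℝ), (fun x => q.eval x)^[j] z ≤ z - j * δ := by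
      intro j
      induction j with
      | zero => intro z; simp
      | succ j ih =>
        intro z
        rw [Function.iterate_succ_apply]
        have h2 := ih (q.eval z)
        have h3 := h1 z
        rw [abs_of_neg (by linarith [hs z])] at h3
        push_cast
        linarith
    have hup : ∀ z : ℝ, q.eval z ≤ R := by
      intro z
      have h2 := hs z
      rcases le_or_gt R |z| with h3 | h3
      · have h4 := hR z h3
        by_contra h5
        push Not at h5
        rw [abs_of_pos (by linarith : 0 < q.eval z)] at h4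
        have h6 := le_abs_self z
        linarith
      · have h6 := (abs_lt.mp h3).2
        linarith
    have h2 := hdn k (q.eval y)
    rw [hy] at h2
    have h3 := hup y
    have h4 := neg_abs_le γ
    linarith

end RealB

/-- **The real place.** -/
theorem dens_real {K : Type} [Field K] [NumberField K] (φ : K[X]) (hd : 2 ≤ φ.natDegree)
    (ρ : K →+* ℝ) (h : ∀ x : ℝ, (φ.map ρ).eval x ≠ x) (Γ : Finset K) : PosDens (GP φ Γ) := by
  classical
  let _ : Algebra K ℂ := (Complex.ofRealHom.comp ρ).toAlgebra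
  have halg : ∀ x : K, algebraMap K ℂ x = ((ρ x : ℝ) : ℂ) := fun x => rfl
  let τ : ℂ ≃ₐ[K] ℂ := AlgEquiv.ofRingEquiv (f := (starRingAut : ℂ ≃+* ℂ)) (by
    intro x
    rw [halg]
    exact Complex.conj_ofReal _)
  have hτ : ∀ z : ℂ, τ z = (starRingEnd ℂ) z := fun z => rfl
  have hd' : 2 ≤ (φ.map ρ).natDegree := by rwa [natDegree_map]
  choose m hm using fun γ : K => RealB.no_preimage (φ.map ρ) hd' h (ρ γ)
  refine dens_of_obstr φ hd Γ (∑ γ ∈ Γ, m γ) τ ?_
  intro γ hγ y hy hfix
  have hmn : m γ ≤ ∑ γ ∈ Γ, m γ :=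
    Finset.single_le_sum (f := m) (fun _ _ => Nat.zero_le _) hγ
  rw [hτ, Complex.conj_eq_iff_real] at hfix
  obtain ⟨t, rfl⟩ := hfix
  have hone : ∀ t : ℝ, ph φ (t : ℂ) = (((φ.map ρ).eval t : ℝ) : ℂ) := by
    intro t
    have e : (algebraMap K ℂ) = Complex.ofRealHom.comp ρ := rfl
    rw [ph, aeval_def, e, ← eval₂_map]
    exact eval₂_at_apply Complex.ofRealHom t
  have hcast : ∀ (k : ℕ) (t : ℝ), (ph φ)^[k] (t : ℂ) =
      (((fun x : ℝ => (φ.map ρ).eval x)^[k] t : ℝ) : ℂ) := by
    intro k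
    induction k with
    | zero => intro t; rfl
    | succ k ih =>
      intro t
      rw [Function.iterate_succ_apply, Function.iterate_succ_apply, ← ih, hone]
  rw [hcast, halg] at hy
  exact hm γ _ hmn t (Complex.ofReal_injective hy)

end Pool.Agent.TFS
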